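import Pool.Agent.H15.G.R_seed8.TH603.Sur.Basic
import Pool.Agent.H15.G.R_seed8.TH176.Nag.Stair2
import Pool.Agent.H15.G.R_seed8.TH15.NagEmpGeneric
import Pool.Agent.H15.G.R_seed8.H932R3.Finals

/-! From emptiness and independence at one configuration of points of the torus to the dimension
of spaces of forms at general points of the plane. -/

namespace Pool.Agent.TH603.Sur

open Finset Pool.Agent.TH176.Nag

section opn

/-- emptiness at one configuration implies emptiness at general points, over every field of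
characteristic zero -/
theorem Emp_open {ι : Type} [Finite ι] {w : ι → ℕ} {S : Set (ℤ × ℤ)} (hfin : S.Finite)
    (hpos : ∀ m ∈ S, 0 ≤ m.1 ∧ 0 ≤ m.2) (h : Emp w S) :
    ∃ F : MvPolynomial (ι × Fin 2) ℚ, F ≠ 0 ∧ ∀ {L : Type} [Field L] [CharZero L] (P : ι × Fin 2 → L),
      MvPolynomial.aeval P F ≠ 0 → (∀ q, P q ≠ 0) ∧
      ∀ f : (ℤ × ℤ) →₀ L, (↑f.support : Set (ℤ × ℤ)) ⊆ S →
        (∀ i, LM f (P (i, 0)) (P (i, 1)) (w i)) → f = 0 := by
  classical
  obtain ⟨K, _, _, X, Y, hX, hY, hK⟩ := h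
  have : Fintype S := hfin.fintype
  have : Fintype ι := Fintype.ofFinite ι
  -- rows
  let R := {r : ι × ℕ × ℕ // r.2.1 + r.2.2 < w r.1}
  -- the polynomial matrix
  let P : R → S → MvPolynomial (ι × Fin 2) ℚ := fun r m =>
    MvPolynomial.C (((m : ℤ × ℤ).1 : ℚ) ^ r.1.2.1 * ((m : ℤ × ℤ).2 : ℚ) ^ r.1.2.2) *
      (MvPolynomial.X (r.1.1, 0) ^ (m : ℤ × ℤ).1.toNat * MvPolynomial.X (r.1.1, 1) ^ (m : ℤ × ℤ).2.toNat)
  -- evaluation
  have heval : ∀ {L : Type} [Field L] [CharZero L] (U : ι × Fin 2 → L) (r : R) (m : S),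
      MvPolynomial.aeval U (P r m) =
        (((m : ℤ × ℤ).1 : L) ^ r.1.2.1 * ((m : ℤ × ℤ).2 : L) ^ r.1.2.2) *
          (U (r.1.1, 0) ^ (m : ℤ × ℤ).1 * U (r.1.1, 1) ^ (m : ℤ × ℤ).2) := by
    intro L _ _ U r m
    obtain ⟨h1, h2⟩ := hpos m m.2
    simp only [P, map_mul, map_pow, MvPolynomial.aeval_X, MvPolynomial.aeval_C]
    have e1 : U (r.1.1, 0) ^ (m : ℤ × ℤ).1 = U (r.1.1, 0) ^ (m : ℤ × ℤ).1.toNat := by
      conv_lhs => rw [← Int.toNat_of_nonneg h1]
      rw [zpow_natCast]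
    have e2 : U (r.1.1, 1) ^ (m : ℤ × ℤ).2 = U (r.1.1, 1) ^ (m : ℤ × ℤ).2.toNat := by
      conv_lhs => rw [← Int.toNat_of_nonneg h2]
      rw [zpow_natCast]
    rw [e1, e2]
    simp
  -- linear equations
  have hpr : ∀ {L : Type} [Field L] [CharZero L] (u v : L) (f : (ℤ × ℤ) →₀ L),
      (↑f.support : Set (ℤ × ℤ)) ⊆ S → ∀ a b : ℕ,
      pr f u v (fun q : L × L => q.1 ^ a * q.2 ^ b) =
        ∑ m : S, (((m : ℤ × ℤ).1 : L) ^ a * ((m : ℤ × ℤ).2 : L) ^ b) *
          (u ^ (m : ℤ × ℤ).1 * v ^ (m : ℤ × ℤ).2) * f m := by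
    intro L _ _ u v f hf a b
    unfold pr
    rw [Finsupp.sum_of_support_subset f (s := S.toFinset) (fun m hm => by
      rw [Set.mem_toFinset]; exact hf hm) _ (by intro m _; ring)]
    rw [Finset.sum_subtype S.toFinset (p := fun m => m ∈ S) (fun m => Set.mem_toFinset)]
    refine Finset.sum_congr (by congr 1) fun m _ => ?_
    ring
  -- the rows
  obtain ⟨a, ha⟩ := Pool.Agent.TH15.Nag.exists_rows (fun (r : R) (m : S) => (((m : ℤ × ℤ).1 : K) ^ r.1.2.1 *
      ((m : ℤ × ℤ).2 : K) ^ r.1.2.2) * (X r.1.1 ^ (m : ℤ × ℤ).1 * Y r.1.1 ^ (m : ℤ × ℤ).2)) (by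
    intro c hc
    let g : ℤ × ℤ → K := fun m => if hm : m ∈ S then c ⟨m, hm⟩ else 0
    let f : (ℤ × ℤ) →₀ K := Finsupp.onFinset S.toFinset g (by
      intro m hm
      rw [Set.mem_toFinset]
      by_contra hn
      exact hm (dif_neg hn))
    have hfS : (↑f.support : Set (ℤ × ℤ)) ⊆ S := by
      intro m hm
      by_contra hn
      have : f m ≠ 0 := Finsupp.mem_support_iff.1 hm
      exact this (dif_neg hn)
    have hfc : ∀ m : S, f m = c m := fun m => dif_pos m.2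
    have hf0 : f = 0 := by
      apply hK f hfS
      intro i
      apply LM_of_mono
      intro p q hpq
      rw [hpr (X i) (Y i) f hfS p q]
      rw [← hc ⟨(i, p, q), hpq⟩]
      refine Finset.sum_congr rfl fun m _ => ?_
      rw [hfc]
    funext m
    rw [← hfc, hf0]
    rfl)
  -- the polynomial minor
  let D : MvPolynomial (ι × Fin 2) ℚ := (Matrix.of fun j m => P (a j) m).det
  have hD : ∀ {L : Type} [Field L] [CharZero L] (U : ι × Fin 2 → L),
      MvPolynomial.aeval U D =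
        (Matrix.of fun (j : S) (m : S) => (((m : ℤ × ℤ).1 : L) ^ (a j).1.2.1 *
          ((m : ℤ × ℤ).2 : L) ^ (a j).1.2.2) * (U ((a j).1.1, 0) ^ (m : ℤ × ℤ).1 *
          U ((a j).1.1, 1) ^ (m : ℤ × ℤ).2)).det := by
    intro L _ _ U
    rw [AlgHom.map_det]
    congr 1
    ext j m
    exact heval U (a j) m
  have hDne : D ≠ 0 := by
    intro h0
    apply ha
    have := hD (fun q : ι × Fin 2 => (![X q.1, Y q.1] q.2 : K))
    simp only [Matrix.cons_val_zero, Matrix.cons_val_one] at this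
    rw [← this, h0, map_zero]
  refine ⟨D * ∏ q : ι × Fin 2, MvPolynomial.X q, mul_ne_zero hDne
    (Finset.prod_ne_zero_iff.2 fun q _ => MvPolynomial.X_ne_zero q), ?_⟩
  intro L _ _ U hU
  rw [map_mul, map_prod] at hU
  have hDC := left_ne_zero_of_mul hU
  have hprod := right_ne_zero_of_mul hU
  rw [Finset.prod_ne_zero_iff] at hprod
  refine ⟨fun q => by simpa using hprod q (mem_univ q), ?_⟩
  rw [hD U] at hDC
  intro f hfS hfL
  have hvec : (fun m : S => f m) = 0 := by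
    apply Matrix.eq_zero_of_mulVec_eq_zero hDC
    funext j
    have h1 := hpr (U ((a j).1.1, 0)) (U ((a j).1.1, 1)) f hfS (a j).1.2.1 (a j).1.2.2
    rw [hfL (a j).1.1 _ (mem_PF_mono (a j).2)] at h1
    rw [Matrix.mulVec, dotProduct]
    exact h1.symm
  ext m
  by_cases hm : m ∈ S
  · exact congrFun hvec ⟨m, hm⟩
  · by_contra hn
    exact hm (hfS (Finsupp.mem_support_iff.2 hn))

end opn

section trans
open Polynomial Pool.Agent.H932R2 Pool.Agent.H932R3

variable {K : Type*} [Field K]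

/-- polynomials as Laurent polynomials -/
noncomputable def tl (K : Type*) [Field K] : K[X][X] →+* Lau K :=
  eval₂RingHom (eval₂RingHom (algebraMap K (Lau K)) (Pool.Agent.TH176.Nag.mon K (1, 0)))
    (Pool.Agent.TH176.Nag.mon K (0, 1))

theorem tl_mon (c : K) (p : ℕ × ℕ) : tl K (c • Pool.Agent.H932R2.mon K p) =
    AddMonoidAlgebra.single (((p.1 : ℤ), (p.2 : ℤ)) : ℤ × ℤ) c := by
  have h1 : c • Pool.Agent.H932R2.mon K p = C (C c) * (C (X ^ p.1) * X ^ p.2) := by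
    rw [Pool.Agent.H932R2.mon, Algebra.smul_def, Polynomial.algebraMap_apply,
      Polynomial.algebraMap_eq]
  rw [h1]
  unfold tl
  rw [map_mul, map_mul, map_pow]
  simp only [coe_eval₂RingHom, eval₂_C, eval₂_X, eval₂_pow]
  rw [mon_pow, mon_pow, mon_mul]
  have e : (p.1 • ((1, 0) : ℤ × ℤ) + p.2 • ((0, 1) : ℤ × ℤ)) = ((p.1 : ℤ), (p.2 : ℤ)) := by
    ext <;> simp
  rw [e]
  unfold Pool.Agent.TH176.Nag.mon
  rw [← Algebra.smul_def, AddMonoidAlgebra.smul_single]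
  simp

theorem LM_of_cIdeal {x y : K} (hx : x ≠ 0) (hy : y ≠ 0) {f : K[X][X]} {w : ℕ}
    (hf : f ∈ cIdeal (fun _ : Fin 1 => x) (C y) w) : LM (tl K f).coeff x y w := by
  refine Pool.Agent.TH671.NagI1.LM_of_mem_ker_pow hx hy (evL x y hx hy) (evL_mon x y hx hy) ?_
  unfold cIdeal at hf
  have h3 := Ideal.mem_map_of_mem (tl K) hf
  rw [Ideal.map_pow] at h3
  refine Ideal.pow_right_mono ?_ w h3
  rw [Ideal.map_le_iff_le_comap, Ideal.span_le]
  rintro g (rfl | rfl)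
  · show evL x y hx hy (tl K (X - C (C y))) = 0
    unfold tl
    rw [map_sub, map_sub]
    simp only [coe_eval₂RingHom, eval₂_C, eval₂_X]
    rw [AlgHom.commutes, evL_mon]
    simp
  · show evL x y hx hy (tl K (C (rootPoly (fun _ : Fin 1 => x)))) = 0
    rw [rootPoly_const, pow_one]
    unfold tl
    simp only [coe_eval₂RingHom, eval₂_C, eval₂_X, map_sub]
    rw [AlgHom.commutes, evL_mon]
    simp

/-- the exponents as pairs of integers -/
def castS (T : Finset (ℕ × ℕ)) : Set (ℤ × ℤ) := {m | ∃ p ∈ T, ((p.1 : ℤ), (p.2 : ℤ)) = m}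

theorem RkI_of_LM {ι : Type} {w : ι → ℕ} {x y : ι → K} (hx : ∀ i, x i ≠ 0) (hy : ∀ i, y i ≠ 0)
    {T : Finset (ℕ × ℕ)} {M : Set (ℕ × ℕ)} (hT : (↑T : Set (ℕ × ℕ)) ⊆ M)
    (h : ∀ f : (ℤ × ℤ) →₀ K, (↑f.support : Set (ℤ × ℤ)) ⊆ castS T →
      (∀ i, LM f (x i) (y i) (w i)) → f = 0) :
    RkI (vIdeal 1 w x (fun a => C (y a))) M T.card := by
  classical
  refine ⟨fun i => Pool.Agent.H932R2.mon K (enumM T i),
    fun i => Submodule.subset_span ⟨_, hT (enumM_mem T i), rfl⟩, fun c hc i => ?_⟩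
  have h1 : (tl K (∑ i, c i • Pool.Agent.H932R2.mon K (enumM T i))).coeff =
      ∑ i, Finsupp.single ((((enumM T i).1 : ℕ) : ℤ), (((enumM T i).2 : ℕ) : ℤ)) (c i) := by
    rw [map_sum, AddMonoidAlgebra.coeff_sum]
    apply sum_congr rfl
    intro i _
    rw [tl_mon, AddMonoidAlgebra.coeff_single]
  have h2 := h (tl K (∑ i, c i • Pool.Agent.H932R2.mon K (enumM T i))).coeff (by
    intro m hm
    rw [h1] at hm
    rw [mem_coe, Finsupp.mem_support_iff, Finsupp.coe_finsetSum, Finset.sum_apply] at hm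
    obtain ⟨i, _, hi⟩ := Finset.exists_ne_zero_of_sum_ne_zero hm
    rw [Finsupp.single_apply] at hi
    have h3 : ((((enumM T i).1 : ℕ) : ℤ), (((enumM T i).2 : ℕ) : ℤ)) = m := by
      by_contra h4
      rw [if_neg h4] at hi
      exact hi rfl
    exact ⟨_, enumM_mem T i, h3⟩) (by
    intro j
    unfold vIdeal at hc
    rw [Ideal.mem_iInf] at hc
    exact LM_of_cIdeal (hx j) (hy j) (hc j))
  have h3 := DFunLike.congr_fun (h1.symm.trans h2)
    ((((enumM T i).1 : ℕ) : ℤ), (((enumM T i).2 : ℕ) : ℤ))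
  rw [Finsupp.coe_finsetSum, Finset.sum_apply, Finset.sum_eq_single i] at h3
  · simpa using h3
  · intro j _ hne
    rw [Finsupp.single_apply, if_neg]
    intro h4
    apply hne
    apply enumM_inj T
    simp only [Prod.mk.injEq, Nat.cast_inj] at h4
    exact Prod.ext h4.1 h4.2
  · intro h4
    exact absurd (mem_univ i) h4

/-- the exponents of the forms of degree `d` -/
def TZ (d : ℕ) : Set (ℤ × ℤ) := {m : ℤ × ℤ | 0 ≤ m.1 ∧ 0 ≤ m.2 ∧ m.1 + m.2 ≤ (d : ℤ)}

theorem exists_nat {d : ℕ} {T : Finset (ℤ × ℤ)} (hT : (↑T : Set (ℤ × ℤ)) ⊆ TZ d) :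
    ∃ T' : Finset (ℕ × ℕ), castS T' = ↑T ∧ T'.card = T.card ∧ (↑T' : Set (ℕ × ℕ)) ⊆ Tset d := by
  classical
  refine ⟨T.image fun m => (m.1.toNat, m.2.toNat), ?_, ?_, ?_⟩
  · ext m
    constructor
    · rintro ⟨p, hp, rfl⟩
      rw [mem_image] at hp
      obtain ⟨m, hm, rfl⟩ := hp
      obtain ⟨h1, h2, h3⟩ := hT (mem_coe.2 hm)
      have : ((((m.1.toNat : ℕ) : ℤ), ((m.2.toNat : ℕ) : ℤ)) : ℤ × ℤ) = m := by
        ext
        · simp only; omega
        · simp only; omega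
      simp only
      rw [this]
      exact mem_coe.2 hm
    · intro hm
      obtain ⟨h1, h2, h3⟩ := hT hm
      refine ⟨(m.1.toNat, m.2.toNat), mem_image.2 ⟨m, mem_coe.1 hm, rfl⟩, ?_⟩
      ext
      · simp only; omega
      · simp only; omega
  · rw [card_image_of_injOn]
    intro m hm m' hm' h
    obtain ⟨h1, h2, h3⟩ := hT hm
    obtain ⟨h1', h2', h3'⟩ := hT hm'
    simp only [Prod.mk.injEq] at h
    ext
    · omega
    · omega
  · intro p hp
    rw [mem_coe, mem_image] at hp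
    obtain ⟨m, hm, rfl⟩ := hp
    obtain ⟨h1, h2, h3⟩ := hT (mem_coe.2 hm)
    rw [mem_Tset]
    omega

/-- from ranks to the expected dimension -/
theorem expDim_of_rank {L : Type} [Field L] {n : ℕ} {w : Fin n → ℕ} {P : Fin n × Fin 2 → L} {d : ℕ}
    (h : Module.finrank L ↥(mspan L (Tset d) ⊓ Submodule.restrictScalars L
          (vIdeal 1 w (fun a => P (a, 0)) (fun a => C (P (a, 1))))) =
          (d + 2).choose 2 - ∑ a, (EE 1 (w a)).card) :
    ExpDim L w (fun i j => P (i, j)) d := by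
  have hsum : ∑ a, (EE 1 (w a)).card = ∑ i, (w i + 1).choose 2 :=
    Finset.sum_congr rfl fun i _ => card_EE_eq (w i)
  rw [hsum] at h
  unfold ExpDim
  rw [← h]
  refine finrank_forms _ _ fun F hF => ?_
  rw [Submodule.restrictScalars_mem, Submodule.restrictScalars_mem]
  unfold vIdeal
  rw [Ideal.mem_iInf, Ideal.mem_iInf]
  exact forall_congr' fun i => mem_ptIdeal_iff hF

theorem TZ_finite (d : ℕ) : (TZ d).Finite := by
  apply Set.Finite.subset (Set.finite_Icc ((0, 0) : ℤ × ℤ) ((d : ℤ), (d : ℤ)))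
  rintro ⟨a, b⟩ ⟨h1, h2, h3⟩
  simp only at h1 h2 h3
  rw [Set.mem_Icc, Prod.mk_le_mk, Prod.mk_le_mk]
  exact ⟨⟨h1, h2⟩, by omega, by omega⟩

/-- emptiness in degree `e` at one configuration gives the expected dimension in all degrees up to
`e` at general points -/
theorem full_open {n : ℕ} {w : Fin n → ℕ} {e : ℕ} (h : Emp w (TZ e)) :
    ∃ F : MvPolynomial (Fin n × Fin 2) ℚ, F ≠ 0 ∧ ∀ {L : Type} [Field L] [CharZero L]
      (P : Fin n → Fin 2 → L), MvPolynomial.aeval (fun ij : Fin n × Fin 2 => P ij.1 ij.2) F ≠ 0 →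
      ∀ d ≤ e, ExpDim L w P d := by
  obtain ⟨F, hF, hF'⟩ := Emp_open (TZ_finite e) (fun m hm => ⟨hm.1, hm.2.1⟩) h
  refine ⟨F, hF, fun {L} _ _ P hP d hd => ?_⟩
  obtain ⟨h1, h2⟩ := hF' _ hP
  have hcast : castS (Tfin e) ⊆ TZ e := by
    rintro m ⟨p, hp, rfl⟩
    have : p ∈ Tset e := by rw [← coe_Tfin]; exact hp
    have h3 : p.1 + p.2 ≤ e := this
    exact ⟨by simp, by simp, by simp only; omega⟩
  have h3 : RkI (vIdeal 1 w (fun a => P a 0) (fun a => C (P a 1))) (Tset e) (Tfin e).card :=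
    RkI_of_LM (fun i => h1 (i, 0)) (fun i => h1 (i, 1)) (by rw [coe_Tfin]) fun f hf hL =>
      h2 f (hf.trans hcast) hL
  exact expDim_of_rank (P := fun ij => P ij.1 ij.2) (finrank_full h3 d hd)

/-- independence in degree `f` at one configuration gives the expected dimension in all degrees
from `f` on at general points -/
theorem indep_open {n : ℕ} {w : Fin n → ℕ} {e : ℕ} (h : Sur w (TZ e)) :
    ∃ F : MvPolynomial (Fin n × Fin 2) ℚ, F ≠ 0 ∧ ∀ {L : Type} [Field L] [CharZero L]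
      (P : Fin n → Fin 2 → L), MvPolynomial.aeval (fun ij : Fin n × Fin 2 => P ij.1 ij.2) F ≠ 0 →
      ∀ d, e ≤ d → ExpDim L w P d := by
  obtain ⟨T, hT, hcard, hE⟩ := h
  obtain ⟨T', hT1, hT2, hT3⟩ := exists_nat hT
  obtain ⟨F, hF, hF'⟩ := Emp_open T.finite_toSet (fun m hm => ⟨(hT hm).1, (hT hm).2.1⟩) hE
  refine ⟨F, hF, fun {L} _ _ P hP d hd => ?_⟩
  obtain ⟨h1, h2⟩ := hF' _ hP
  have h3 : RkI (vIdeal 1 w (fun a => P a 0) (fun a => C (P a 1))) (Tset e) T'.card :=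
    RkI_of_LM (fun i => h1 (i, 0)) (fun i => h1 (i, 1)) hT3 fun f hf hL =>
      h2 f (by rw [← hT1]; exact hf) hL
  rw [hT2, hcard] at h3
  have hsum : ∑ a, (EE 1 (w a)).card = cond w :=
    Finset.sum_congr rfl fun i _ => card_EE_eq (w i)
  rw [← hsum] at h3
  exact expDim_of_rank (P := fun ij => P ij.1 ij.2) (finrank_indep h3 d hd)

end trans

end Pool.Agent.TH603.Sur
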