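import Pool.Agent.H15.G.R_seed8.TH603.Sur.Chart

/-! The exponents of the charts are at most as many as those of the weighted plane: piecewise
linear mutations. -/

namespace Pool.Agent.TH603.Sur

open Finset Pool.Agent.TH176.Nag

theorem Emp_Q3z {ι : Type} {w : ι → ℕ} {N : ℕ} (hN : 3 ≤ N) (t : ℕ) (e : ℕ)
    (h : Emp w (Q3z N (t + 2) e)) : Emp w (WPz N e) := by
  apply Emp_chartz hN t e
  have hN' : (3 : ℤ) ≤ N := by exact_mod_cast hN
  have hM : (0 : ℤ) < N - 2 := by omega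
  obtain ⟨g0, g1, g2, a, b, c, f1, f2, hA⟩ := exists_aff hN t
  refine (h.sub g0 f1 g1 f2 (-((e : ℤ) * (a - c))) (-((e : ℤ) * (b - a))) (by rw [hA.hdet]; omega)).mono ?_
  intro m hm
  obtain ⟨l, hl0, hl1, hl2, hl3⟩ := id hm
  have e1 : gs N (t + 2) = g1 := hA.h1.symm
  have e2 : gs N (t + 2 + 1) = g2 := hA.h2.symm
  rw [e1] at hl1 hl3
  rw [e2] at hl1 hl2
  have hc := hA.hc
  have ha := hA.ha
  have hb := hA.hb
  have hf1 := hA.hf1
  have hf2 := hA.hf2
  have hrec := hA.hrec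
  have hmk := hA.hmk
  have hp1 : g0 * g2 = g1 ^ 2 + (N - 2) := by rw [hrec]; rw [hrec] at hmk; linear_combination -hmk
  obtain ⟨p1, hp⟩ : ∃ p1 : ℤ, p1 = -l - m.1 * a - m.2 * b + m.1 * b + m.2 * a := ⟨_, rfl⟩
  have hX : (N - 2 : ℤ) * p1 + e = (m.1 * g2 + l) + (m.2 * g1 + l) := by
    rw [hp]
    linear_combination m.1 * ha + m.2 * hb - m.1 * hb - m.2 * ha - hl1
  have k1 : g0 * p1 + f1 * (m.2 * g1 + l) + -((e : ℤ) * (a - c)) = m.1 := by
    apply mul_left_cancel₀ hM.ne'
    linear_combination g0 * hX - (m.2 * g1 + l) * hf1 + (e : ℤ) * ha - (e : ℤ) * hc + g1 * hl1 +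
      l * hrec + m.1 * hp1
  have k2 : g1 * p1 + f2 * (m.2 * g1 + l) + -((e : ℤ) * (b - a)) = m.2 := by
    apply mul_left_cancel₀ hM.ne'
    linear_combination g1 * hX - (m.2 * g1 + l) * hf2 + (e : ℤ) * hb - (e : ℤ) * ha + g2 * hl1 -
      m.2 * hmk
  refine ⟨(p1, m.2 * g1 + l), ?_, ?_⟩
  · rw [← Q3z_iff hN hA (e : ℤ)]
    simp only
    rw [k1, k2]
    exact hm
  · ext
    · exact k1.symm
    · exact k2.symm

theorem WPz_finite {N : ℕ} (hN : 3 ≤ N) (E : ℤ) : (WPz N E).Finite := by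
  apply Set.Finite.subset (Set.finite_Icc ((0, 0) : ℤ × ℤ) (E, E))
  rintro ⟨a, b⟩ ⟨h1, h2, h3⟩
  simp only at h1 h2 h3
  have hN' : (3 : ℤ) ≤ N := by exact_mod_cast hN
  rw [Set.mem_Icc, Prod.mk_le_mk, Prod.mk_le_mk]
  have h4 : 0 ≤ ((N : ℤ) - 3) * b := mul_nonneg (by omega) h2
  refine ⟨⟨h1, h2⟩, by nlinarith, by nlinarith⟩

theorem exists_inj {N : ℕ} (hN : 3 ≤ N) (E : ℤ) (t : ℕ) : ∃ f : ℤ × ℤ → ℤ × ℤ,
    Set.MapsTo f (S3z N t E) (WPz N E) ∧ Set.InjOn f (S3z N t E) := by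
  have hN' : (3 : ℤ) ≤ N := by exact_mod_cast hN
  induction t with
  | zero =>
    refine ⟨fun m => (m.2 + (E - m.1 - m.2) / N, (E - m.1 - m.2) / N), ?_, ?_⟩
    · rintro ⟨a, b⟩ ⟨l, hl0, hl1, hl2, hl3⟩
      have e0 : gs (N : ℤ) 0 = 1 := rfl
      have e1 : gs (N : ℤ) (0 + 1) = 1 := rfl
      simp only [e0, e1] at hl1 hl2 hl3
      have hl : (E - a - b) / (N : ℤ) = l := by
        have : E - a - b = N * l := by linarith
        rw [this]
        exact Int.mul_ediv_cancel_left l (by omega)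
      refine ⟨?_, ?_, ?_⟩
      · simp only; rw [hl]; linarith
      · simp only; rw [hl]; exact hl0
      · simp only; rw [hl]; linarith
    · rintro ⟨a, b⟩ ⟨l, hl0, hl1, hl2, hl3⟩ ⟨a', b'⟩ ⟨l', hl0', hl1', hl2', hl3'⟩ h
      have e0 : gs (N : ℤ) 0 = 1 := rfl
      have e1 : gs (N : ℤ) (0 + 1) = 1 := rfl
      simp only [e0, e1] at hl1 hl2 hl3 hl1' hl2' hl3'
      have hl : (E - a - b) / (N : ℤ) = l := by
        have : E - a - b = N * l := by linarith
        rw [this]
        exact Int.mul_ediv_cancel_left l (by omega)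
      have hl' : (E - a' - b') / (N : ℤ) = l' := by
        have : E - a' - b' = N * l' := by linarith
        rw [this]
        exact Int.mul_ediv_cancel_left l' (by omega)
      simp only [Prod.mk.injEq] at h
      rw [hl, hl'] at h
      obtain ⟨h1, h2⟩ := h
      subst h2
      ext
      · simp only; linarith
      · simp only; linarith
  | succ t ih =>
    obtain ⟨f, hf1, hf2⟩ := ih
    have hmap : Set.MapsTo (fun n : ℤ × ℤ => ((N : ℤ) * min n.1 0 - n.2, n.1)) (S3z N (t + 1) E)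
        (S3z N t E) := by
      rintro ⟨n1, n2⟩ ⟨l, hl0, hl1, hl2, hl3⟩
      simp only at hl1 hl2 hl3
      have hrec : gs N (t + 1 + 1) = N * gs N (t + 1) - gs N t := gs_two t
      have hg0 := gs_pos hN' t
      have hg1 := gs_pos hN' (t + 1)
      have hg2 := gs_pos hN' (t + 1 + 1)
      set g0 := gs N t
      set g1 := gs N (t + 1)
      set g2 := gs N (t + 1 + 1)
      show ((N : ℤ) * min n1 0 - n2, n1) ∈ S3z N t E
      rcases le_total 0 n1 with h | h
      · rw [min_eq_right h]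
        refine ⟨l + n2 * g1, ?_, ?_, ?_, ?_⟩
        · linarith
        · simp only
          linear_combination hl1 - n2 * hrec
        · simp only; linarith
        · simp only
          have : 0 ≤ n1 * g0 := mul_nonneg h hg0.le
          linarith
      · rw [min_eq_left h]
        refine ⟨l + n2 * g1 - n1 * g0, ?_, ?_, ?_, ?_⟩
        · have : n1 * g0 ≤ 0 := mul_nonpos_of_nonpos_of_nonneg h hg0.le
          linarith
        · simp only
          linear_combination hl1 - n2 * hrec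
        · simp only
          have e : (N * n1 - n2) * g1 + (l + n2 * g1 - n1 * g0) = n1 * g2 + l := by
            linear_combination (-n1) * hrec
          rw [e]; exact hl2
        · simp only
          have e : n1 * g0 + (l + n2 * g1 - n1 * g0) = n2 * g1 + l := by ring
          rw [e]; exact hl3
    refine ⟨fun n => f ((N : ℤ) * min n.1 0 - n.2, n.1), fun n hn => hf1 (hmap hn), ?_⟩
    intro n hn n' hn' h
    have h1 := hf2 (hmap hn) (hmap hn') h
    simp only [Prod.mk.injEq] at h1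
    obtain ⟨h2, h3⟩ := h1
    rw [h3] at h2
    ext
    · exact h3
    · omega

/-- the lattice triangle is finite and has at most as many points as the weighted plane -/
theorem Q3z_card {N : ℕ} (hN : 3 ≤ N) (t : ℕ) (E : ℤ) :
    (Q3z N (t + 2) E).Finite ∧ (Q3z N (t + 2) E).ncard ≤ (WPz N E).ncard := by
  obtain ⟨g0, g1, g2, a, b, c, f1, f2, hA⟩ := exists_aff hN t
  obtain ⟨f, hf1, hf2⟩ := exists_inj hN E (t + 2)
  have hN' : (3 : ℤ) ≤ N := by exact_mod_cast hN
  let φ : ℤ × ℤ → ℤ × ℤ := fun p =>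
    (g0 * p.1 + f1 * p.2 + -(E * (a - c)), g1 * p.1 + f2 * p.2 + -(E * (b - a)))
  have hφ : Function.Injective φ := by
    rintro ⟨p, q⟩ ⟨p', q'⟩ h
    simp only [φ, Prod.mk.injEq] at h
    obtain ⟨h1, h2⟩ := h
    have hdet := hA.hdet
    have e1 : (N : ℤ) * (p - p') = 0 := by
      rw [← hdet]; linear_combination f2 * h1 - f1 * h2
    have e2 : (N : ℤ) * (q - q') = 0 := by
      rw [← hdet]; linear_combination g0 * h2 - g1 * h1
    have e3 := (mul_eq_zero.1 e1).resolve_left (by omega)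
    have e4 := (mul_eq_zero.1 e2).resolve_left (by omega)
    ext <;> simp <;> omega
  have hm : Set.MapsTo (fun p => f (φ p)) (Q3z N (t + 2) E) (WPz N E) := by
    intro p hp
    exact hf1 ((Q3z_iff hN hA E p).2 hp)
  have hi : Set.InjOn (fun p => f (φ p)) (Q3z N (t + 2) E) := by
    intro p hp p' hp' h
    exact hφ (hf2 ((Q3z_iff hN hA E p).2 hp) ((Q3z_iff hN hA E p').2 hp') h)
  exact ⟨Set.Finite.of_injOn hm hi (WPz_finite hN E),
    Set.ncard_le_ncard_of_injOn _ hm hi (WPz_finite hN E)⟩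

end Pool.Agent.TH603.Sur
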